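import Mathlib

/-!
# Minimal submanifolds of round spheres and eigenvalues of their Laplacian (definitions)

Submanifolds are subsets of Euclidean space with the induced metric.  The second fundamental form
and the Laplace operator at a point `p` are computed along curves in `M` through `p` whose
velocities form an orthonormal basis of the tangent space and whose accelerations at `p` are
normal to `M` (for example the geodesics of `M` through `p` with orthonormal initial velocities).
-/

namespace Pool.Agent.H720Z.TY

open scoped ContDiff Topology RealInnerProductSpace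

/-- Euclidean space `ℝ^N`. -/
abbrev E (N : ℕ) := EuclideanSpace ℝ (Fin N)

variable {N : ℕ}

/-- `M` is a smooth embedded submanifold without boundary of `ℝ^N` of dimension `d`: near each of
its points `p` it is the zero set of a smooth map to `ℝ^(N-d)` whose derivative at `p` is onto. -/
def IsSubmanifold (d : ℕ) (M : Set (E N)) : Prop :=
  ∀ p ∈ M, ∃ (k : ℕ) (U : Set (E N)) (F : E N → (Fin k → ℝ)), d + k = N ∧ IsOpen U ∧ p ∈ U ∧
    ContDiff ℝ ∞ F ∧ Function.Surjective (fderiv ℝ F p) ∧ M ∩ U = {x | x ∈ U ∧ F x = 0}

/-- A normal frame of the `d`-dimensional submanifold `M` at `p`: smooth curves `γ 1, …, γ d`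
through `p` that run in `M` for small times, whose velocities at `p` are orthonormal (so they are
an orthonormal basis `e 1, …, e d` of the tangent space of `M` at `p`) and whose accelerations at
`p` are orthogonal to the tangent space (the curves are geodesics of `M` to second order at `p`).
Then the acceleration of `γ i` is the value on `(e i, e i)` of the second fundamental form of `M`
in `ℝ^N`, and `(f ∘ γ i)''(0)` is the value on `(e i, e i)` of the Hessian of `f` on `M`. -/
structure IsNormalFrame (d : ℕ) (M : Set (E N)) (p : E N) (γ : Fin d → ℝ → E N) : Prop where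
  smooth : ∀ i, ContDiff ℝ ∞ (γ i)
  mem : ∀ i, ∀ᶠ t in 𝓝 (0 : ℝ), γ i t ∈ M
  start : ∀ i, γ i 0 = p
  orthonormal : Orthonormal ℝ (fun i => deriv (γ i) 0)
  normal : ∀ i j, ⟪deriv (deriv (γ i)) 0, deriv (γ j) 0⟫ = 0

/-- `M`, a `d`-dimensional submanifold of the unit sphere, is minimal in the sphere: at each point
`p` the trace of the second fundamental form of `M` in `ℝ^N` is a multiple of `p`, that is, the
mean curvature vector of `M` in the sphere vanishes. -/
def IsMinimalInSphere (d : ℕ) (M : Set (E N)) : Prop :=
  ∀ p ∈ M, (∃ γ, IsNormalFrame d M p γ) ∧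
    ∀ γ, IsNormalFrame d M p γ → ∃ c : ℝ, ∑ i, deriv (deriv (γ i)) 0 = c • p

/-- `Δ f (p) = a` for the Laplace operator `Δ = - div grad = - trace Hess` of `M`. -/
def HasLaplacianAt (d : ℕ) (M : Set (E N)) (f : E N → ℝ) (p : E N) (a : ℝ) : Prop :=
  (∃ γ, IsNormalFrame d M p γ) ∧
    ∀ γ, IsNormalFrame d M p γ → -∑ i, deriv (deriv (fun t => f (γ i t))) 0 = a

/-- `μ` is an eigenvalue of the Laplace operator of `M`: some smooth function `f` that does not
vanish identically on `M` has `Δ f = μ f` on `M`. -/
def IsEigenvalue (d : ℕ) (M : Set (E N)) (μ : ℝ) : Prop :=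
  ∃ f : E N → ℝ, ContDiff ℝ ∞ f ∧ (∃ p ∈ M, f p ≠ 0) ∧ ∀ p ∈ M, HasLaplacianAt d M f p (μ * f p)

end Pool.Agent.H720Z.TY
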