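import Pool.Agent.H720Z.TY.Defs

namespace Pool.Agent.H720Z.TY

open scoped ContDiff Topology RealInnerProductSpace

variable {N : ℕ}

lemma chain2 {W : Type} [NormedAddCommGroup W] [NormedSpace ℝ W] {G : E N → W}
    (hG : ContDiff ℝ ∞ G) {γ : ℝ → E N} (hγ : ContDiff ℝ ∞ γ) :
    deriv (deriv (fun t => G (γ t))) 0 =
      fderiv ℝ (fderiv ℝ G) (γ 0) (deriv γ 0) (deriv γ 0) +
        fderiv ℝ G (γ 0) (deriv (deriv γ) 0) := by
  have hGd : Differentiable ℝ G := hG.differentiable (by simp)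
  have hγd : Differentiable ℝ γ := hγ.differentiable (by simp)
  have hG' : ContDiff ℝ ∞ (fderiv ℝ G) := hG.fderiv_right (by simp)
  have hγ' : ContDiff ℝ ∞ (deriv γ) := hγ.iterate_deriv 1
  have h1 : deriv (fun t => G (γ t)) = fun t => fderiv ℝ G (γ t) (deriv γ t) := by
    funext t
    exact ((hGd (γ t)).hasFDerivAt.comp_hasDerivAt t (hγd t).hasDerivAt).deriv
  rw [h1]
  have h2 : HasDerivAt (fun t => fderiv ℝ G (γ t))
      (fderiv ℝ (fderiv ℝ G) (γ 0) (deriv γ 0)) 0 :=
    ((hG'.differentiable (by simp)) (γ 0)).hasFDerivAt.comp_hasDerivAt 0 (hγd 0).hasDerivAt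
  have h3 : HasDerivAt (deriv γ) (deriv (deriv γ) 0) 0 :=
    ((hγ'.differentiable (by simp)) 0).hasDerivAt
  exact (h2.clm_apply h3).deriv

lemma expand {d : ℕ} {K : Submodule ℝ (E N)} (hK : Module.finrank ℝ K = d) {e : Fin d → E N}
    (he : Orthonormal ℝ e) (hmem : ∀ i, e i ∈ K) {x : E N} (hx : x ∈ K) :
    x = ∑ i, ⟪e i, x⟫ • e i := by
  have hspan : Submodule.span ℝ (Set.range e) = K := by
    apply Submodule.eq_of_le_of_finrank_eq
    · rw [Submodule.span_le]
      rintro _ ⟨i, rfl⟩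
      exact hmem i
    · rw [finrank_span_eq_card he.linearIndependent, hK]; simp
  rw [← hspan] at hx
  obtain ⟨c, hc⟩ := (Submodule.mem_span_range_iff_exists_fun ℝ).1 hx
  have : ∀ i, ⟪e i, x⟫ = c i := by
    intro i
    rw [← hc]
    exact he.inner_right_fintype c i
  simp_rw [this]
  exact hc.symm

lemma trace_eq {W : Type} [NormedAddCommGroup W] [NormedSpace ℝ W] {d : ℕ}
    {K : Submodule ℝ (E N)} (hK : Module.finrank ℝ K = d) {e e' : Fin d → E N}
    (he : Orthonormal ℝ e) (hmem : ∀ i, e i ∈ K) (he' : Orthonormal ℝ e') (hmem' : ∀ i, e' i ∈ K)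
    (B : E N →L[ℝ] E N →L[ℝ] W) : ∑ i, B (e' i) (e' i) = ∑ i, B (e i) (e i) := by
  have h1 : ∀ j, B (e' j) (e' j) = ∑ i, ⟪e i, e' j⟫ • B (e i) (e' j) := by
    intro j
    have h := expand hK he hmem (hmem' j)
    calc B (e' j) (e' j) = B (∑ i, ⟪e i, e' j⟫ • e i) (e' j) := by rw [← h]
      _ = _ := by simp [map_sum]
  have h2 : ∀ i, B (e i) (e i) = ∑ j, ⟪e i, e' j⟫ • B (e i) (e' j) := by
    intro i
    have h := expand hK he' hmem' (hmem i)
    calc B (e i) (e i) = B (e i) (∑ j, ⟪e' j, e i⟫ • e' j) := by rw [← h]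
      _ = _ := by simp [map_sum, real_inner_comm]
  simp_rw [h1, h2]
  rw [Finset.sum_comm]

lemma frame_indep {d : ℕ} {M : Set (E N)} (hM : IsSubmanifold d M) {p : E N} (hp : p ∈ M)
    {γ δ : Fin d → ℝ → E N} (hγ : IsNormalFrame d M p γ) (hδ : IsNormalFrame d M p δ) :
    (∑ i, deriv (deriv (γ i)) 0 = ∑ i, deriv (deriv (δ i)) 0) ∧
    ∀ f : E N → ℝ, ContDiff ℝ ∞ f →
      ∑ i, deriv (deriv (fun t => f (γ i t))) 0 = ∑ i, deriv (deriv (fun t => f (δ i t))) 0 := by
  obtain ⟨k, U, F, hk, hU, hpU, hF, hsurj, hMU⟩ := hM p hp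
  set K : Submodule ℝ (E N) := LinearMap.ker (fderiv ℝ F p : E N →ₗ[ℝ] (Fin k → ℝ)) with hKdef
  have hK : Module.finrank ℝ K = d := by
    have h1 := LinearMap.finrank_range_add_finrank_ker (fderiv ℝ F p : E N →ₗ[ℝ] (Fin k → ℝ))
    have h2 : LinearMap.range (fderiv ℝ F p : E N →ₗ[ℝ] (Fin k → ℝ)) = ⊤ :=
      LinearMap.range_eq_top.2 hsurj
    rw [h2] at h1
    simp at h1
    rw [hKdef]
    omega
  have hFd : Differentiable ℝ F := hF.differentiable (by simp)
  have key : ∀ {γ : Fin d → ℝ → E N}, IsNormalFrame d M p γ →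
      (∀ i, deriv (γ i) 0 ∈ K) ∧
      (∑ i, fderiv ℝ (fderiv ℝ F) p (deriv (γ i) 0) (deriv (γ i) 0)) +
        fderiv ℝ F p (∑ i, deriv (deriv (γ i)) 0) = 0 := by
    intro γ hγ
    have hz : ∀ i, (fun t => F (γ i t)) =ᶠ[𝓝 0] fun _ => 0 := by
      intro i
      have hc : ContinuousAt (γ i) 0 := (hγ.smooth i).continuous.continuousAt
      have hU' : ∀ᶠ t in 𝓝 (0 : ℝ), γ i t ∈ U := by
        apply hc.eventually
        rw [hγ.start i]
        exact hU.mem_nhds hpU
      filter_upwards [hγ.mem i, hU'] with t h1 h2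
      have : γ i t ∈ M ∩ U := ⟨h1, h2⟩
      rw [hMU] at this
      exact this.2
    constructor
    · intro i
      have h1 : HasDerivAt (fun t => F (γ i t)) (fderiv ℝ F (γ i 0) (deriv (γ i) 0)) 0 :=
        (hFd _).hasFDerivAt.comp_hasDerivAt 0
          (((hγ.smooth i).differentiable (by simp)) 0).hasDerivAt
      have h2 := h1.deriv
      rw [(hz i).deriv_eq, hγ.start i] at h2
      rw [hKdef, LinearMap.mem_ker]
      simpa using h2.symm
    · rw [map_sum, ← Finset.sum_add_distrib]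
      apply Finset.sum_eq_zero
      intro i _
      have h1 := chain2 hF (hγ.smooth i)
      rw [hγ.start i] at h1
      rw [← h1, (hz i).deriv.deriv_eq]
      simp
  obtain ⟨g1, g2⟩ := key hγ
  obtain ⟨d1, d2⟩ := key hδ
  have htr := trace_eq hK hγ.orthonormal g1 hδ.orthonormal d1 (fderiv ℝ (fderiv ℝ F) p)
  have hH : ∑ i, deriv (deriv (γ i)) 0 = ∑ i, deriv (deriv (δ i)) 0 := by
    set H := ∑ i, deriv (deriv (γ i)) 0 with hH
    set H' := ∑ i, deriv (deriv (δ i)) 0 with hH'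
    have hmem : H - H' ∈ K := by
      rw [hKdef, LinearMap.mem_ker]
      simp only [ContinuousLinearMap.coe_coe, map_sub]
      rw [htr] at d2
      rw [sub_eq_zero]
      exact add_left_cancel (g2.trans d2.symm)
    have hperp : ∀ {γ : Fin d → ℝ → E N}, IsNormalFrame d M p γ → (∀ i, deriv (γ i) 0 ∈ K) →
        ∀ x ∈ K, ⟪∑ i, deriv (deriv (γ i)) 0, x⟫ = 0 := by
      intro γ hγ hm x hx
      rw [expand hK hγ.orthonormal hm hx, inner_sum]
      apply Finset.sum_eq_zero
      intro j _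
      rw [inner_smul_right, sum_inner]
      simp [hγ.normal]
    have h1 := hperp hγ g1 _ hmem
    have h2 := hperp hδ d1 _ hmem
    have h3 : ⟪H - H', H - H'⟫ = 0 := by
      rw [inner_sub_left]
      rw [← hH] at h1
      rw [← hH'] at h2
      rw [h1, h2]; simp
    exact sub_eq_zero.1 (inner_self_eq_zero.1 h3)
  refine ⟨hH, fun f hf => ?_⟩
  have e1 : ∀ {γ : Fin d → ℝ → E N}, IsNormalFrame d M p γ →
      ∑ i, deriv (deriv (fun t => f (γ i t))) 0 =
      (∑ i, fderiv ℝ (fderiv ℝ f) p (deriv (γ i) 0) (deriv (γ i) 0)) +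
        fderiv ℝ f p (∑ i, deriv (deriv (γ i)) 0) := by
    intro γ hγ
    rw [map_sum, ← Finset.sum_add_distrib]
    apply Finset.sum_congr rfl
    intro i _
    have h1 := chain2 hf (hγ.smooth i)
    rw [hγ.start i] at h1
    exact h1
  rw [e1 hγ, e1 hδ, hH, trace_eq hK hγ.orthonormal g1 hδ.orthonormal d1]

/-- trigonometric curves -/
noncomputable def crv {W : Type} [NormedAddCommGroup W] [NormedSpace ℝ W] (c a a' b b' : W)
    (α β : ℝ) (t : ℝ) : W :=
  c + Real.cos (α * t) • a + Real.sin (α * t) • a' + Real.cos (β * t) • b + Real.sin (β * t) • b'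

section
variable {W : Type} [NormedAddCommGroup W] [NormedSpace ℝ W] (c a a' b b' : W) (α β : ℝ)

lemma crv_smooth : ContDiff ℝ ∞ (crv c a a' b b' α β) := by
  unfold crv
  fun_prop

lemma crv_hasDeriv (t : ℝ) : HasDerivAt (crv c a a' b b' α β)
    (crv 0 (α • a') (-(α • a)) (β • b') (-(β • b)) α β t) t := by
  have h1 : HasDerivAt (fun t => α * t) α t := by simpa using (hasDerivAt_id t).const_mul α
  have h2 : HasDerivAt (fun t => β * t) β t := by simpa using (hasDerivAt_id t).const_mul β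
  have h := (((((hasDerivAt_const t c).add (h1.cos.smul_const a)).add
    (h1.sin.smul_const a')).add (h2.cos.smul_const b)).add (h2.sin.smul_const b'))
  refine HasDerivAt.congr_deriv h ?_
  unfold crv
  simp only [smul_neg, smul_smul, neg_mul, neg_smul]
  abel

lemma crv_deriv : deriv (crv c a a' b b' α β) =
    crv 0 (α • a') (-(α • a)) (β • b') (-(β • b)) α β :=
  funext fun t => (crv_hasDeriv c a a' b b' α β t).deriv

lemma crv_zero : crv c a a' b b' α β 0 = c + a + b := by simp [crv]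

lemma crv_d1 : deriv (crv c a a' b b' α β) 0 = α • a' + β • b' := by
  rw [crv_deriv, crv_zero]; simp

lemma crv_d2 : deriv (deriv (crv c a a' b b' α β)) 0 = -(α ^ 2) • a - (β ^ 2) • b := by
  rw [crv_deriv, crv_d1]
  simp only [smul_neg, smul_smul, neg_smul, sq]
  abel
end

end Pool.Agent.H720Z.TY
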