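import Pool.Agent.H720Z.TY.Frame

namespace Pool.Agent.H720Z.TY

open scoped ContDiff Topology RealInnerProductSpace

/-- points of `ℝ^14 = ℝ^6 × ℝ^8` -/
noncomputable def tor (a0 a1 a2 a3 a4 a5 : ℝ) (y : E 8) : E 14 :=
  !₂[a0, a1, a2, a3, a4, a5, y 0, y 1, y 2, y 3, y 4, y 5, y 6, y 7]

/-- last eight coordinates -/
noncomputable def tail (x : E 14) : E 8 := !₂[x 6, x 7, x 8, x 9, x 10, x 11, x 12, x 13]

lemma tor_tail (x : E 14) : x = tor (x 0) (x 1) (x 2) (x 3) (x 4) (x 5) (tail x) := by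
  ext i
  fin_cases i <;> simp [tor, tail]

lemma tor_add (a0 a1 a2 a3 a4 a5 b0 b1 b2 b3 b4 b5 : ℝ) (y z : E 8) :
    tor a0 a1 a2 a3 a4 a5 y + tor b0 b1 b2 b3 b4 b5 z =
      tor (a0 + b0) (a1 + b1) (a2 + b2) (a3 + b3) (a4 + b4) (a5 + b5) (y + z) := by
  ext i
  fin_cases i <;> simp [tor]

lemma tor_sub (a0 a1 a2 a3 a4 a5 b0 b1 b2 b3 b4 b5 : ℝ) (y z : E 8) :
    tor a0 a1 a2 a3 a4 a5 y - tor b0 b1 b2 b3 b4 b5 z =
      tor (a0 - b0) (a1 - b1) (a2 - b2) (a3 - b3) (a4 - b4) (a5 - b5) (y - z) := by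
  ext i
  fin_cases i <;> simp [tor]

lemma tor_smul (c a0 a1 a2 a3 a4 a5 : ℝ) (y : E 8) :
    c • tor a0 a1 a2 a3 a4 a5 y =
      tor (c * a0) (c * a1) (c * a2) (c * a3) (c * a4) (c * a5) (c • y) := by
  ext i
  fin_cases i <;> simp [tor]

lemma inner8 (y z : E 8) : ⟪y, z⟫ = y 0 * z 0 + y 1 * z 1 + y 2 * z 2 + y 3 * z 3 + y 4 * z 4 +
    y 5 * z 5 + y 6 * z 6 + y 7 * z 7 := by
  simp [PiLp.inner_apply, Fin.sum_univ_succ]
  ring

lemma tor_inner (a0 a1 a2 a3 a4 a5 b0 b1 b2 b3 b4 b5 : ℝ) (y z : E 8) :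
    ⟪tor a0 a1 a2 a3 a4 a5 y, tor b0 b1 b2 b3 b4 b5 z⟫ =
      a0 * b0 + a1 * b1 + a2 * b2 + a3 * b3 + a4 * b4 + a5 * b5 + ⟪y, z⟫ := by
  rw [inner8]
  simp [PiLp.inner_apply, Fin.sum_univ_succ, tor]
  ring

/-- the constant `κ` -/
noncomputable def kap : ℝ := Real.sqrt (14 * 135 ^ 3 / 4096)

lemma kap_sq : kap ^ 2 = 14 * 135 ^ 3 / 4096 := Real.sq_sqrt (by norm_num)

/-- real part of `(z1 z2)^2` -/
def PP (a0 a1 a2 a3 : ℝ) : ℝ := (a0 * a2 - a1 * a3) ^ 2 - (a0 * a3 + a1 * a2) ^ 2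
/-- imaginary part of `(z1 z2)^2` -/
def QQ (a0 a1 a2 a3 : ℝ) : ℝ := 2 * (a0 * a2 - a1 * a3) * (a0 * a3 + a1 * a2)

/-- defining map -/
noncomputable def FF (x : E 14) : Fin 5 → ℝ :=
  ![x 0 ^ 2 + x 1 ^ 2 - 8 / 135, x 2 ^ 2 + x 3 ^ 2 - 8 / 135,
    x 4 - kap * PP (x 0) (x 1) (x 2) (x 3), x 5 - kap * QQ (x 0) (x 1) (x 2) (x 3),
    x 6 ^ 2 + x 7 ^ 2 + x 8 ^ 2 + x 9 ^ 2 + x 10 ^ 2 + x 11 ^ 2 + x 12 ^ 2 + x 13 ^ 2 - 7 / 9]

lemma FF_smooth : ContDiff ℝ ∞ FF := by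
  rw [contDiff_pi]
  intro i
  fin_cases i <;> simp [FF, PP, QQ] <;> fun_prop

lemma FF_tor (a0 a1 a2 a3 a4 a5 : ℝ) (y : E 8) : FF (tor a0 a1 a2 a3 a4 a5 y) =
    ![a0 ^ 2 + a1 ^ 2 - 8 / 135, a2 ^ 2 + a3 ^ 2 - 8 / 135, a4 - kap * PP a0 a1 a2 a3,
      a5 - kap * QQ a0 a1 a2 a3, ⟪y, y⟫ - 7 / 9] := by
  rw [inner8]
  ext i
  fin_cases i <;> simp [FF, tor]
  ring

/-- the submanifold -/
def MM : Set (E 14) := {x | FF x = 0}

lemma tor_mem (a0 a1 a2 a3 a4 a5 : ℝ) (y : E 8) : tor a0 a1 a2 a3 a4 a5 y ∈ MM ↔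
    a0 ^ 2 + a1 ^ 2 = 8 / 135 ∧ a2 ^ 2 + a3 ^ 2 = 8 / 135 ∧ a4 = kap * PP a0 a1 a2 a3 ∧
      a5 = kap * QQ a0 a1 a2 a3 ∧ ⟪y, y⟫ = 7 / 9 := by
  unfold MM
  rw [Set.mem_setOf_eq, FF_tor]
  constructor
  · intro h
    have h0 := congrFun h 0
    have h1 := congrFun h 1
    have h2 := congrFun h 2
    have h3 := congrFun h 3
    have h4 := congrFun h 4
    simp only [Matrix.cons_val_zero, Matrix.cons_val_one, Matrix.cons_val, Pi.zero_apply]
      at h0 h1 h2 h3 h4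
    refine ⟨by linarith, by linarith, by linarith, by linarith, by linarith⟩
  · rintro ⟨h0, h1, h2, h3, h4⟩
    rw [h0, h1, h4, ← h2, ← h3]
    ext i
    fin_cases i <;> simp

lemma s_sq {a0 a1 a2 a3 a4 a5 : ℝ} (h0 : a0 ^ 2 + a1 ^ 2 = 8 / 135)
    (h1 : a2 ^ 2 + a3 ^ 2 = 8 / 135) (h2 : a4 = kap * PP a0 a1 a2 a3)
    (h3 : a5 = kap * QQ a0 a1 a2 a3) : a4 ^ 2 + a5 ^ 2 = 14 / 135 := by
  have : a4 ^ 2 + a5 ^ 2 = kap ^ 2 * ((a0 ^ 2 + a1 ^ 2) * (a2 ^ 2 + a3 ^ 2)) ^ 2 := by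
    rw [h2, h3]; unfold PP QQ; ring
  rw [this, kap_sq, h0, h1]; norm_num

lemma MM_sphere : MM ⊆ Metric.sphere 0 1 := by
  intro x hx
  rw [tor_tail x] at hx ⊢
  obtain ⟨h0, h1, h2, h3, h4⟩ := (tor_mem _ _ _ _ _ _ _).1 hx
  have h5 := s_sq h0 h1 h2 h3
  rw [mem_sphere_zero_iff_norm]
  have : ‖tor (x 0) (x 1) (x 2) (x 3) (x 4) (x 5) (tail x)‖ ^ 2 = 1 := by
    rw [← real_inner_self_eq_norm_sq, tor_inner, h4]
    nlinarith
  exact (pow_eq_one_iff_of_nonneg (norm_nonneg _) two_ne_zero).1 this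

lemma MM_compact : IsCompact MM := by
  have hc : IsClosed MM := isClosed_eq FF_smooth.continuous continuous_const
  exact (isCompact_sphere (0 : E 14) 1).of_isClosed_subset hc MM_sphere

lemma polar {a b r : ℝ} (hr : 0 < r) (h : a ^ 2 + b ^ 2 = r ^ 2) :
    ∃ θ : ℝ, a = r * Real.cos θ ∧ b = r * Real.sin θ := by
  have hn : ‖(⟨a, b⟩ : ℂ)‖ = r := by
    rw [Complex.norm_eq_sqrt_sq_add_sq]
    simp only
    rw [h, Real.sqrt_sq hr.le]
  refine ⟨Complex.arg ⟨a, b⟩, ?_, ?_⟩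
  · have := Complex.norm_mul_cos_arg (⟨a, b⟩ : ℂ)
    rw [hn] at this; exact this.symm
  · have := Complex.norm_mul_sin_arg (⟨a, b⟩ : ℂ)
    rw [hn] at this; exact this.symm

lemma MM_connected : IsConnected MM := by
  set r : ℝ := Real.sqrt (8 / 135) with hr
  have hr0 : 0 < r := Real.sqrt_pos.2 (by norm_num)
  have hr2 : r ^ 2 = 8 / 135 := Real.sq_sqrt (by norm_num)
  set b : ℝ := Real.sqrt (7 / 9) with hb
  have hb0 : 0 < b := Real.sqrt_pos.2 (by norm_num)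
  have hb2 : b ^ 2 = 7 / 9 := Real.sq_sqrt (by norm_num)
  let Φ : ℝ × ℝ × E 8 → E 14 := fun q =>
    tor (r * Real.cos q.1) (r * Real.sin q.1) (r * Real.cos q.2.1) (r * Real.sin q.2.1)
      (kap * PP (r * Real.cos q.1) (r * Real.sin q.1) (r * Real.cos q.2.1) (r * Real.sin q.2.1))
      (kap * QQ (r * Real.cos q.1) (r * Real.sin q.1) (r * Real.cos q.2.1) (r * Real.sin q.2.1))
      q.2.2
  have hΦ : Continuous Φ := by
    apply (PiLp.continuous_toLp 2 _).comp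
    apply continuous_pi
    intro i
    fin_cases i <;> simp [PP, QQ] <;> fun_prop
  have hS : IsConnected ((Set.univ : Set ℝ) ×ˢ (Set.univ : Set ℝ) ×ˢ Metric.sphere (0 : E 8) b) := by
    refine isConnected_univ.prod (isConnected_univ.prod ?_)
    apply isConnected_sphere _ _ hb0.le
    rw [← Module.finrank_eq_rank]
    simp
  have himg : Φ '' ((Set.univ : Set ℝ) ×ˢ (Set.univ : Set ℝ) ×ˢ Metric.sphere (0 : E 8) b)
      = MM := by
    ext x
    constructor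
    · rintro ⟨q, ⟨_, _, hq⟩, rfl⟩
      rw [mem_sphere_zero_iff_norm] at hq
      refine (tor_mem _ _ _ _ _ _ _).2 ⟨?_, ?_, rfl, rfl, ?_⟩
      · have := Real.cos_sq_add_sin_sq q.1
        rw [← hr2]; linear_combination r ^ 2 * this
      · have := Real.cos_sq_add_sin_sq q.2.1
        rw [← hr2]; linear_combination r ^ 2 * this
      · rw [real_inner_self_eq_norm_sq, hq, hb2]
    · intro hx
      rw [tor_tail x] at hx
      obtain ⟨h0, h1, h2, h3, h4⟩ := (tor_mem _ _ _ _ _ _ _).1 hx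
      obtain ⟨θ, e0, e1⟩ := polar hr0 (h0.trans hr2.symm)
      obtain ⟨φ, e2, e3⟩ := polar hr0 (h1.trans hr2.symm)
      refine ⟨(θ, φ, tail x), ⟨trivial, trivial, ?_⟩, ?_⟩
      · rw [mem_sphere_zero_iff_norm]
        rw [real_inner_self_eq_norm_sq, ← hb2] at h4
        exact (pow_left_inj₀ (norm_nonneg _) hb0.le two_ne_zero).1 h4
      · simp only [Φ]
        rw [← e0, ← e1, ← e2, ← e3, ← h2, ← h3]
        exact (tor_tail x).symm
  rw [← himg]
  exact hS.image Φ hΦ.continuousOn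

lemma fderiv_comp_eq (p v : E 14) (j : Fin 5) (c : ℝ)
    (h : HasDerivAt (fun t : ℝ => FF (p + t • v) j) c 0) : fderiv ℝ FF p v j = c := by
  have h1 : HasDerivAt (fun t : ℝ => p + t • v) v 0 := by
    simpa using ((hasDerivAt_id (0 : ℝ)).smul_const v).const_add p
  have h2 : HasFDerivAt FF (fderiv ℝ FF p) (p + (0 : ℝ) • v) := by
    simpa using ((FF_smooth.differentiable (by simp)) p).hasFDerivAt
  have h3 := h2.comp_hasDerivAt (0 : ℝ) h1
  have h4 := (hasDerivAt_pi.1 h3) j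
  exact h4.unique h

lemma quad_deriv (A B C : ℝ) (g : ℝ → ℝ) (hg : ∀ t, g t = A + B * t + C * t ^ 2) :
    HasDerivAt g B 0 := by
  have : g = fun t => A + B * t + C * t ^ 2 := funext hg
  rw [this]
  have h := (((hasDerivAt_id (0 : ℝ)).const_mul B).const_add A).add
    (((hasDerivAt_id (0 : ℝ)).pow 2).const_mul C)
  refine HasDerivAt.congr_deriv h ?_
  simp

lemma MM_submanifold : IsSubmanifold 9 MM := by
  intro p hp
  refine ⟨5, Set.univ, FF, by norm_num, isOpen_univ, trivial, FF_smooth, ?_, ?_⟩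
  swap
  · ext x; simp [MM]
  rw [tor_tail p] at hp ⊢
  generalize p 0 = a0 at *
  generalize p 1 = a1 at *
  generalize p 2 = a2 at *
  generalize p 3 = a3 at *
  generalize p 4 = a4 at *
  generalize p 5 = a5 at *
  generalize tail p = y at *
  obtain ⟨h0, h1, h2, h3, h4⟩ := (tor_mem _ _ _ _ _ _ _).1 hp
  set L := fderiv ℝ FF (tor a0 a1 a2 a3 a4 a5 y) with hL
  have c0 : ∀ b0 b1 b2 b3 b4 b5 z, L (tor b0 b1 b2 b3 b4 b5 z) 0 = 2 * (a0 * b0 + a1 * b1) := by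
    intro b0 b1 b2 b3 b4 b5 z
    apply fderiv_comp_eq
    apply quad_deriv (a0 ^ 2 + a1 ^ 2 - 8 / 135) _ (b0 ^ 2 + b1 ^ 2)
    intro t
    rw [tor_smul, tor_add, FF_tor]
    simp only [Matrix.cons_val_zero]
    ring
  have c1 : ∀ b0 b1 b2 b3 b4 b5 z, L (tor b0 b1 b2 b3 b4 b5 z) 1 = 2 * (a2 * b2 + a3 * b3) := by
    intro b0 b1 b2 b3 b4 b5 z
    apply fderiv_comp_eq
    apply quad_deriv (a2 ^ 2 + a3 ^ 2 - 8 / 135) _ (b2 ^ 2 + b3 ^ 2)
    intro t
    rw [tor_smul, tor_add, FF_tor]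
    simp only [Matrix.cons_val_zero, Matrix.cons_val_one]
    ring
  have c4 : ∀ b0 b1 b2 b3 b4 b5 z, L (tor b0 b1 b2 b3 b4 b5 z) 4 = 2 * ⟪y, z⟫ := by
    intro b0 b1 b2 b3 b4 b5 z
    apply fderiv_comp_eq
    apply quad_deriv (⟪y, y⟫ - 7 / 9) _ (⟪z, z⟫)
    intro t
    rw [tor_smul, tor_add, FF_tor]
    simp only [Matrix.cons_val]
    rw [inner_add_left, inner_add_right, inner_add_right, real_inner_smul_left,
      real_inner_smul_right, real_inner_smul_left, real_inner_smul_right, real_inner_comm y z]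
    ring
  have c2 : ∀ b4 b5 z, L (tor 0 0 0 0 b4 b5 z) 2 = b4 := by
    intro b4 b5 z
    apply fderiv_comp_eq
    apply quad_deriv (a4 - kap * PP a0 a1 a2 a3) _ 0
    intro t
    rw [tor_smul, tor_add, FF_tor]
    simp only [Matrix.cons_val, mul_zero, add_zero]
    ring
  have c3 : ∀ b4 b5 z, L (tor 0 0 0 0 b4 b5 z) 3 = b5 := by
    intro b4 b5 z
    apply fderiv_comp_eq
    apply quad_deriv (a5 - kap * QQ a0 a1 a2 a3) _ 0
    intro t
    rw [tor_smul, tor_add, FF_tor]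
    simp only [Matrix.cons_val, mul_zero, add_zero]
    ring
  intro w
  set v1 := tor (135 / 16 * w 0 * a0) (135 / 16 * w 0 * a1) (135 / 16 * w 1 * a2)
    (135 / 16 * w 1 * a3) 0 0 ((9 / 14 * w 4) • y) with hv1
  refine ⟨v1 + tor 0 0 0 0 (w 2 - L v1 2) (w 3 - L v1 3) 0, ?_⟩
  rw [map_add]
  ext j
  fin_cases j
  · change L v1 0 + L (tor 0 0 0 0 (w 2 - L v1 2) (w 3 - L v1 3) 0) 0 = w 0
    rw [c0, hv1, c0]
    linear_combination (135 / 8 * w 0) * h0
  · change L v1 1 + L (tor 0 0 0 0 (w 2 - L v1 2) (w 3 - L v1 3) 0) 1 = w 1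
    rw [c1, hv1, c1]
    linear_combination (135 / 8 * w 1) * h1
  · change L v1 2 + L (tor 0 0 0 0 (w 2 - L v1 2) (w 3 - L v1 3) 0) 2 = w 2
    rw [c2]; ring
  · change L v1 3 + L (tor 0 0 0 0 (w 2 - L v1 2) (w 3 - L v1 3) 0) 3 = w 3
    rw [c3]; ring
  · change L v1 4 + L (tor 0 0 0 0 (w 2 - L v1 2) (w 3 - L v1 3) 0) 4 = w 4
    rw [c4, hv1, c4, real_inner_smul_right, h4]
    simp
    ring

/-- the eigenfunction -/
def ff (x : E 14) : ℝ := x 0 * x 2 - x 1 * x 3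

lemma ff_tor (a0 a1 a2 a3 a4 a5 : ℝ) (y : E 8) :
    ff (tor a0 a1 a2 a3 a4 a5 y) = a0 * a2 - a1 * a3 := by
  simp [ff, tor]

lemma ff_smooth : ContDiff ℝ ∞ ff := by
  unfold ff
  fun_prop

lemma exists_frame (p : E 14) (hp : p ∈ MM) : ∃ γ, IsNormalFrame 9 MM p γ ∧
    ∑ i, deriv (deriv (γ i)) 0 = (-9 : ℝ) • p ∧
    -∑ i, deriv (deriv (fun t => ff (γ i t))) 0 = 9 / 4 * ff p := by
  rw [tor_tail p] at hp ⊢
  generalize p 0 = a0 at *
  generalize p 1 = a1 at *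
  generalize p 2 = a2 at *
  generalize p 3 = a3 at *
  generalize p 4 = a4 at *
  generalize p 5 = a5 at *
  generalize tail p = y at *
  obtain ⟨h0, h1, h2, h3, h4⟩ := (tor_mem _ _ _ _ _ _ _).1 hp
  have h5 := s_sq h0 h1 h2 h3
  set b : ℝ := Real.sqrt (7 / 9) with hb
  have hb0 : 0 < b := Real.sqrt_pos.2 (by norm_num)
  have hb2 : b ^ 2 = 7 / 9 := Real.sq_sqrt (by norm_num)
  set β : ℝ := Real.sqrt (135 / 16) with hβ
  have hβ2 : β ^ 2 = 135 / 16 := Real.sq_sqrt (by norm_num)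
  have hy : y ≠ 0 := by
    intro h; rw [h] at h4; simp at h4; norm_num at h4
  haveI : Fact (Module.finrank ℝ (E 8) = 7 + 1) := ⟨by simp⟩
  let ob := OrthonormalBasis.fromOrthogonalSpanSingleton (𝕜 := ℝ) 7 hy
  let u : Fin 7 → E 8 := fun i => (ob i : E 8)
  have hu1 : ∀ i j, ⟪u i, u j⟫ = if i = j then 1 else 0 := by
    intro i j
    have := orthonormal_iff_ite.1 ob.orthonormal i j
    rw [← this]; rfl
  have hu2 : ∀ i, ⟪y, u i⟫ = 0 := fun i =>
    Submodule.mem_orthogonal_singleton_iff_inner_right.1 (ob i).2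
  have hu2' : ∀ i, ⟪u i, y⟫ = 0 := fun i => by rw [real_inner_comm]; exact hu2 i
  let g0 := crv (tor 0 0 0 0 0 0 y) (tor a0 a1 a2 a3 0 0 0) (tor (-a1) a0 (-a3) a2 0 0 0)
    (tor 0 0 0 0 a4 a5 0) (tor 0 0 0 0 (-a5) a4 0) (3 / 4) 3
  let g1 := crv (tor 0 0 0 0 a4 a5 y) (tor a0 a1 a2 a3 0 0 0) (tor (-a1) a0 a3 (-a2) 0 0 0)
    (tor 0 0 0 0 0 0 0) (tor 0 0 0 0 0 0 0) β 0
  let g2 := fun i : Fin 7 => crv (tor a0 a1 a2 a3 a4 a5 0) (tor 0 0 0 0 0 0 y)
    (tor 0 0 0 0 0 0 (b • u i)) (tor 0 0 0 0 0 0 0) (tor 0 0 0 0 0 0 0) b⁻¹ 0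
  have g0t : ∀ t, g0 t = tor
      (Real.cos (3 / 4 * t) * a0 - Real.sin (3 / 4 * t) * a1)
      (Real.cos (3 / 4 * t) * a1 + Real.sin (3 / 4 * t) * a0)
      (Real.cos (3 / 4 * t) * a2 - Real.sin (3 / 4 * t) * a3)
      (Real.cos (3 / 4 * t) * a3 + Real.sin (3 / 4 * t) * a2)
      (Real.cos (3 * t) * a4 - Real.sin (3 * t) * a5)
      (Real.cos (3 * t) * a5 + Real.sin (3 * t) * a4) y := by
    intro t
    simp only [g0, crv, tor_smul, tor_add]
    congr 1 <;> simp <;> ring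
  have g1t : ∀ t, g1 t = tor
      (Real.cos (β * t) * a0 - Real.sin (β * t) * a1)
      (Real.cos (β * t) * a1 + Real.sin (β * t) * a0)
      (Real.cos (β * t) * a2 + Real.sin (β * t) * a3)
      (Real.cos (β * t) * a3 - Real.sin (β * t) * a2) a4 a5 y := by
    intro t
    simp only [g1, crv, tor_smul, tor_add]
    congr 1 <;> simp <;> ring
  have g2t : ∀ i t, g2 i t = tor a0 a1 a2 a3 a4 a5
      (Real.cos (b⁻¹ * t) • y + Real.sin (b⁻¹ * t) • b • u i) := by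
    intro i t
    simp only [g2, crv, tor_smul, tor_add]
    congr 1 <;> simp
  have m0 : ∀ t, g0 t ∈ MM := by
    intro t
    rw [g0t, tor_mem]
    have hc := Real.cos_sq_add_sin_sq (3 / 4 * t)
    have e1 : Real.cos (3 * t) = (Real.cos (3 / 4 * t) ^ 2 - Real.sin (3 / 4 * t) ^ 2) ^ 2 -
        (2 * Real.sin (3 / 4 * t) * Real.cos (3 / 4 * t)) ^ 2 := by
      rw [← Real.cos_two_mul', ← Real.sin_two_mul, ← Real.cos_two_mul']
      congr 1; ring
    have e2 : Real.sin (3 * t) = 2 * (2 * Real.sin (3 / 4 * t) * Real.cos (3 / 4 * t)) *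
        (Real.cos (3 / 4 * t) ^ 2 - Real.sin (3 / 4 * t) ^ 2) := by
      rw [← Real.cos_two_mul', ← Real.sin_two_mul, ← Real.sin_two_mul]
      congr 1; ring
    rw [e1, e2]
    generalize Real.cos (3 / 4 * t) = c at *
    generalize Real.sin (3 / 4 * t) = s at *
    refine ⟨?_, ?_, ?_, ?_, h4⟩
    · linear_combination (a0 ^ 2 + a1 ^ 2) * hc + h0
    · linear_combination (a2 ^ 2 + a3 ^ 2) * hc + h1
    · rw [h2, h3]; unfold PP QQ; ring
    · rw [h2, h3]; unfold PP QQ; ring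
  have m1 : ∀ t, g1 t ∈ MM := by
    intro t
    rw [g1t, tor_mem]
    have hc := Real.cos_sq_add_sin_sq (β * t)
    generalize Real.cos (β * t) = c at *
    generalize Real.sin (β * t) = s at *
    refine ⟨?_, ?_, ?_, ?_, h4⟩
    · linear_combination (a0 ^ 2 + a1 ^ 2) * hc + h0
    · linear_combination (a2 ^ 2 + a3 ^ 2) * hc + h1
    · have : PP (c * a0 - s * a1) (c * a1 + s * a0) (c * a2 + s * a3) (c * a3 - s * a2) =
          (c ^ 2 + s ^ 2) ^ 2 * PP a0 a1 a2 a3 := by unfold PP; ring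
      rw [this, hc, h2]; ring
    · have : QQ (c * a0 - s * a1) (c * a1 + s * a0) (c * a2 + s * a3) (c * a3 - s * a2) =
          (c ^ 2 + s ^ 2) ^ 2 * QQ a0 a1 a2 a3 := by unfold QQ; ring
      rw [this, hc, h3]; ring
  have m2 : ∀ i t, g2 i t ∈ MM := by
    intro i t
    rw [g2t, tor_mem]
    refine ⟨h0, h1, h2, h3, ?_⟩
    have hc := Real.cos_sq_add_sin_sq (b⁻¹ * t)
    generalize Real.cos (b⁻¹ * t) = c at *
    generalize Real.sin (b⁻¹ * t) = s at *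
    simp only [inner_add_left, inner_add_right, real_inner_smul_left, real_inner_smul_right,
      hu1, hu2, hu2', h4, if_true]
    linear_combination (7 / 9) * hc + s ^ 2 * hb2
  have v0 : deriv g0 0 = tor (-(3 / 4 * a1)) (3 / 4 * a0) (-(3 / 4 * a3)) (3 / 4 * a2)
      (-(3 * a5)) (3 * a4) 0 := by
    simp only [g0, crv_d1, tor_smul, tor_add]
    congr 1 <;> simp
  have v1 : deriv g1 0 = tor (-(β * a1)) (β * a0) (β * a3) (-(β * a2)) 0 0 0 := by
    simp only [g1, crv_d1, tor_smul, tor_add]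
    congr 1 <;> simp
  have v2 : ∀ i, deriv (g2 i) 0 = tor 0 0 0 0 0 0 (u i) := by
    intro i
    simp only [g2, crv_d1, tor_smul, tor_add]
    congr 1 <;> simp [smul_smul, hb0.ne']
  have w0 : deriv (deriv g0) 0 = tor (-(9 / 16 * a0)) (-(9 / 16 * a1)) (-(9 / 16 * a2))
      (-(9 / 16 * a3)) (-(9 * a4)) (-(9 * a5)) 0 := by
    simp only [g0, crv_d2, tor_smul, tor_sub]
    congr 1
    all_goals first
      | ring1
      | simp
  have w1 : deriv (deriv g1) 0 = tor (-(135 / 16 * a0)) (-(135 / 16 * a1)) (-(135 / 16 * a2))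
      (-(135 / 16 * a3)) 0 0 0 := by
    simp only [g1, crv_d2, tor_smul, tor_sub, hβ2]
    congr 1 <;> simp
  have hbi : (b⁻¹) ^ 2 = 9 / 7 := by rw [inv_pow, hb2]; norm_num
  have w2 : ∀ i, deriv (deriv (g2 i)) 0 = tor 0 0 0 0 0 0 ((-(9 / 7) : ℝ) • y) := by
    intro i
    simp only [g2, crv_d2, tor_smul, tor_sub, hbi]
    congr 1 <;> simp
  have f0 : deriv (deriv (fun t => ff (g0 t))) 0 = -(9 / 4) * (a0 * a2 - a1 * a3) := by
    have : (fun t => ff (g0 t)) =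
        crv (0 : ℝ) (a0 * a2 - a1 * a3) (-(a0 * a3 + a1 * a2)) 0 0 (3 / 2) 0 := by
      funext t
      rw [g0t, ff_tor]
      have e1 : Real.cos (3 / 2 * t) = Real.cos (3 / 4 * t) ^ 2 - Real.sin (3 / 4 * t) ^ 2 := by
        rw [← Real.cos_two_mul']; congr 1; ring
      have e2 : Real.sin (3 / 2 * t) = 2 * Real.sin (3 / 4 * t) * Real.cos (3 / 4 * t) := by
        rw [← Real.sin_two_mul]; congr 1; ring
      simp only [crv, smul_eq_mul, e1, e2]
      ring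
    rw [this, crv_d2]
    simp only [smul_eq_mul]
    ring
  have f1 : deriv (deriv (fun t => ff (g1 t))) 0 = 0 := by
    have : (fun t => ff (g1 t)) = fun _ => a0 * a2 - a1 * a3 := by
      funext t
      rw [g1t, ff_tor]
      have hc := Real.cos_sq_add_sin_sq (β * t)
      linear_combination (a0 * a2 - a1 * a3) * hc
    rw [this]; simp
  have f2 : ∀ i, deriv (deriv (fun t => ff (g2 i t))) 0 = 0 := by
    intro i
    have : (fun t => ff (g2 i t)) = fun _ => a0 * a2 - a1 * a3 := by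
      funext t
      rw [g2t, ff_tor]
    rw [this]; simp
  let γ : Fin 9 → ℝ → E 14 := Fin.cons g0 (Fin.cons g1 g2)
  have hcases : ∀ (P : Fin 9 → Prop), P 0 → P 1 → (∀ i : Fin 7, P i.succ.succ) → ∀ i, P i := by
    intro P p0 p1 p2 i
    refine Fin.cases p0 (fun j => Fin.cases p1 p2 j) i
  have γ0 : γ 0 = g0 := rfl
  have γ1 : γ 1 = g1 := rfl
  have γ2 : ∀ i : Fin 7, γ i.succ.succ = g2 i := fun i => rfl
  refine ⟨γ, ⟨?_, ?_, ?_, ?_, ?_⟩, ?_, ?_⟩
  · apply hcases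
    · exact crv_smooth _ _ _ _ _ _ _
    · exact crv_smooth _ _ _ _ _ _ _
    · intro i; exact crv_smooth _ _ _ _ _ _ _
  · apply hcases
    · exact Filter.Eventually.of_forall m0
    · exact Filter.Eventually.of_forall m1
    · intro i; exact Filter.Eventually.of_forall (m2 i)
  · apply hcases
    · rw [γ0, g0t]; simp
    · rw [γ1, g1t]; simp
    · intro i; rw [γ2, g2t]; simp
  · rw [orthonormal_iff_ite]
    have n01 : (0 : Fin 9) ≠ 1 := by decide
    have n0s : ∀ i : Fin 7, (0 : Fin 9) ≠ i.succ.succ := fun i => (Fin.succ_ne_zero _).symm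
    have n1s : ∀ i : Fin 7, (1 : Fin 9) ≠ i.succ.succ := fun i h => by
      have := congrArg Fin.val h
      simp at this
    apply hcases
    · apply hcases
      · rw [γ0, v0, tor_inner, if_pos rfl, inner_zero_left]
        linear_combination (9 / 16) * h0 + (9 / 16) * h1 + 9 * h5
      · rw [γ0, γ1, v0, v1, tor_inner, if_neg n01, inner_zero_left]
        linear_combination (3 / 4 * β) * h0 - (3 / 4 * β) * h1
      · intro j
        rw [γ0, γ2, v0, v2, tor_inner, if_neg (n0s j), inner_zero_left]; ring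
    · apply hcases
      · rw [γ0, γ1, v0, v1, tor_inner, if_neg n01.symm, inner_zero_left]
        linear_combination (3 / 4 * β) * h0 - (3 / 4 * β) * h1
      · rw [γ1, v1, tor_inner, if_pos rfl, inner_zero_left]
        linear_combination β ^ 2 * h0 + β ^ 2 * h1 + (16 / 135) * hβ2
      · intro j
        rw [γ1, γ2, v1, v2, tor_inner, if_neg (n1s j), inner_zero_left]; ring
    · intro i
      apply hcases
      · rw [γ0, γ2, v0, v2, tor_inner, if_neg (n0s i).symm, inner_zero_right]; ring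
      · rw [γ1, γ2, v1, v2, tor_inner, if_neg (n1s i).symm, inner_zero_right]; ring
      · intro j
        rw [γ2, γ2, v2, v2, tor_inner, hu1]
        simp [Fin.succ_inj]
  · apply hcases
    · apply hcases
      · rw [γ0, v0, w0, tor_inner, inner_zero_left]; ring
      · rw [γ0, γ1, v1, w0, tor_inner, inner_zero_left]; ring
      · intro j
        rw [γ0, γ2, v2, w0, tor_inner, inner_zero_left]; ring
    · apply hcases
      · rw [γ0, γ1, v0, w1, tor_inner, inner_zero_left]; ring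
      · rw [γ1, v1, w1, tor_inner, inner_zero_left]; ring
      · intro j
        rw [γ1, γ2, v2, w1, tor_inner, inner_zero_left]; ring
    · intro i
      apply hcases
      · rw [γ0, γ2, v0, w2, tor_inner, inner_zero_right]; ring
      · rw [γ1, γ2, v1, w2, tor_inner, inner_zero_right]; ring
      · intro j
        rw [γ2, γ2, v2, w2, tor_inner, real_inner_smul_left, hu2]; ring
  · rw [Fin.sum_univ_succ, Fin.sum_univ_succ]
    change deriv (deriv g0) 0 + (deriv (deriv g1) 0 + ∑ i : Fin 7, deriv (deriv (g2 i)) 0) = _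
    simp only [w0, w1, w2, Finset.sum_const, Finset.card_univ, Fintype.card_fin]
    rw [← Nat.cast_smul_eq_nsmul ℝ, tor_smul, tor_smul, tor_add, tor_add]
    congr 1
    all_goals first
      | ring1
      | (rw [smul_smul]; simp only [zero_add]; congr 1; norm_num)
  · rw [Fin.sum_univ_succ, Fin.sum_univ_succ]
    change -(deriv (deriv (fun t => ff (g0 t))) 0 + (deriv (deriv (fun t => ff (g1 t))) 0 +
      ∑ i : Fin 7, deriv (deriv (fun t => ff (g2 i t))) 0)) = _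
    simp only [f0, f1, f2, ff_tor]
    simp

theorem main : IsCompact MM ∧ IsConnected MM ∧ MM ⊆ Metric.sphere 0 1 ∧ IsSubmanifold 9 MM ∧
    IsMinimalInSphere 9 MM ∧ IsEigenvalue 9 MM (9 / 4) := by
  refine ⟨MM_compact, MM_connected, MM_sphere, MM_submanifold, ?_, ff, ff_smooth, ?_, ?_⟩
  · intro p hp
    obtain ⟨γ, hγ, h1, _⟩ := exists_frame p hp
    refine ⟨⟨γ, hγ⟩, fun δ hδ => ⟨-9, ?_⟩⟩
    rw [← h1]
    exact (frame_indep MM_submanifold hp hδ hγ).1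
  · set r : ℝ := Real.sqrt (8 / 135) with hr
    have hr0 : 0 < r := Real.sqrt_pos.2 (by norm_num)
    have hr2 : r ^ 2 = 8 / 135 := Real.sq_sqrt (by norm_num)
    set b : ℝ := Real.sqrt (7 / 9) with hb
    have hb2 : b ^ 2 = 7 / 9 := Real.sq_sqrt (by norm_num)
    refine ⟨tor r 0 r 0 (kap * PP r 0 r 0) (kap * QQ r 0 r 0) (EuclideanSpace.single 0 b), ?_, ?_⟩
    · refine (tor_mem _ _ _ _ _ _ _).2 ⟨by simpa using hr2, by simpa using hr2, rfl, rfl, ?_⟩
      rw [inner8]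
      simp
      linarith
    · rw [ff_tor]
      simp [hr0.ne']
  · intro p hp
    obtain ⟨γ, hγ, _, h2⟩ := exists_frame p hp
    refine ⟨⟨γ, hγ⟩, fun δ hδ => ?_⟩
    rw [← h2, (frame_indep MM_submanifold hp hδ hγ).2 ff ff_smooth]

end Pool.Agent.H720Z.TY
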